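import Mathlib
import Pool.Agent.VCD.Main

/-!
# Vaught's conjecture for theories of algebras in finitely generated discriminator varieties

Let `S i` be finitely many finite algebras in a countable language without relation symbols, with a
common discriminator term. Let `T` be any first order theory, complete or not, such that all
identities of the algebras `S i` hold in all models of `T` with universe `ℕ`. Then `T` has perfectly
many countable models, or its models with universe `ℕ` form at most countably many isomorphism
classes and are determined by their complete theories. No constants are needed.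
-/

open Set FirstOrder VCR

namespace Pool.Agent.Results.MP_b791b1_lc.DiscriminatorVarieties

/-- The term `t(x, y, z)` is a discriminator on `M`: its value is `z` if `x = y`, and `x` if
`x ≠ y`. -/
def IsDiscriminator {L : FirstOrder.Language.{0, 0}} (M : Type) [L.Structure M]
    (t : L.Term (Fin 3)) : Prop :=
  ∀ x y z : M, (x = y → t.realize ![x, y, z] = z) ∧ (x ≠ y → t.realize ![x, y, z] = x)

/-- All identities which hold in all algebras `S i` hold in the structure on `ℕ` coded by `s`: this
structure is in the variety generated by the algebras `S i`. -/
def InVariety {L : FirstOrder.Language.{0, 0}} {ι : Type} (S : ι → Type)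
    [∀ i, L.Structure (S i)] (s : Str L) : Prop :=
  ∀ p q : L.Term ℕ, (∀ (i : ι) (v : ℕ → S i), p.realize v = q.realize v) →
    ∀ v : ℕ → ℕ, @FirstOrder.Language.Term.realize L ℕ (toStructure s) ℕ v p =
      @FirstOrder.Language.Term.realize L ℕ (toStructure s) ℕ v q

/-- The same sentences hold in the structures coded by `s` and by `s'`. -/
def ElEquiv {L : FirstOrder.Language.{0, 0}} (s s' : Str L) : Prop :=
  ∀ φ : L.Sentence, @FirstOrder.Language.Sentence.Realize L ℕ (toStructure s) φ ↔
    @FirstOrder.Language.Sentence.Realize L ℕ (toStructure s') φ

/-- Let `L` be a countable language without relation symbols, and let `S i` be finitely many finite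
`L`-algebras with a common discriminator term. Let `T` be any theory, complete or not, all of whose
models with universe `ℕ` are in the variety generated by the algebras `S i`. Then `T` has perfectly
many countable models, or its models with universe `ℕ` form at most countably many isomorphism
classes and are determined up to isomorphism by their complete theories. In particular `VC2` holds
for `T`. -/
theorem result (L : FirstOrder.Language.{0, 0}) [∀ n, Countable (L.Functions n)]
    (hL : ∀ n, IsEmpty (L.Relations n)) (ι : Type) [Finite ι] (S : ι → Type)
    [∀ i, L.Structure (S i)] [∀ i, Finite (S i)] (t : L.Term (Fin 3))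
    (ht : ∀ i, IsDiscriminator (S i) t) (T : L.Theory) (hT : ∀ s ∈ VCR.Mod T, InVariety S s) :
    PerfectMany T ∨
      (∃ C : Set (Str L), C.Countable ∧ ∀ s ∈ VCR.Mod T, ∃ s' ∈ C, Iso s s') ∧
        ∀ s ∈ VCR.Mod T, ∀ s' ∈ VCR.Mod T, ElEquiv s s' → Iso s s' := by
  obtain ⟨sw, D⟩ := VCD.SwO_of_disc (S := S) ht
  by_cases hP : PerfectMany T
  · exact Or.inl hP
  · exact Or.inr ⟨(VCD.vc_main D hL T hT).resolve_right hP,
      fun s hs s' hs' h => VCD.vc_equiv D hL T hT hP s hs s' hs' h⟩

end Pool.Agent.Results.MP_b791b1_lc.DiscriminatorVarieties
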