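import Pool.Agent.VCR.Maim

/-!
# Rings interpretable in models of theories without perfectly many countable models

Let `T` be a theory in a countable language, `M` a model of `T` and `R` a ring with `1` (any characteristic,
not necessarily commutative) interpretable with parameters in `M`. Then there is a nonempty perfect
set of pairwise non-isomorphic countable models of `T`, or `R` is uniformly strongly pi-regular: for some
`n` every `r ^ n` is in `r ^ (n+1) R` and in `R r ^ (n+1)`.
-/

open FirstOrder VCR

namespace Pool.Agent.Results.MP_b791b1_lc.PiRegularRings

universe u v

theorem result {L : FirstOrder.Language.{0, 0}} [Countable L.Symbols] (T : L.Theory)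
    {M : Type u} [L.Structure M] (hM : M ⊨ T) (R : Type v) [Ring R]
    (hI : Interpretable L M R) :
    (∃ n : ℕ, ∀ r : R, ∃ x y, r ^ n = r ^ (n + 1) * x ∧ r ^ n = y * r ^ (n + 1)) ∨
      PerfectMany T :=
  part_five T hM R hI

end Pool.Agent.Results.MP_b791b1_lc.PiRegularRings
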