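import Mathlib
import Pool.Agent.VRR.Main

/-!
# VC2 for theories of semiprime rings without nilpotent elements of finite additive order

Let `T` be a theory in the language of rings, complete or not, such that every model of `T` with
universe `ℕ` is a semiprime ring `R` with `1` (if `x R x = 0` then `x = 0`; `R` need not be
commutative) in which no nonzero element `x` with `x ^ 2 = 0` has finite additive order. Then the
perfect set form of Vaught's conjecture holds for `T`. All theories of reduced rings with `1`, of any
characteristic, are covered, and so are all theories of torsion-free semiprime rings with `1`.
-/

open FirstOrder VCR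

namespace Pool.Agent.Results.MP_b791b1_lc.RingTheories

/-- Let `T` be a theory in the language of rings, complete or not, all of whose models with universe
`ℕ` are semiprime rings with `1` without nonzero elements `x` such that `x * x = 0` and `n • x = 0`
for some positive `n`. Then `VC2` holds for `T`. -/
theorem result (T : FirstOrder.Language.ring.Theory)
    (hT : ∀ s ∈ VCR.Mod T, ∃ (R : Type) (_ : Ring R), IsRingStr s R ∧
      (∀ x : R, (∀ y, x * y * x = 0) → x = 0) ∧
      (∀ (n : ℕ) (x : R), n ≠ 0 → n • x = 0 → x * x = 0 → x = 0)) :
    VC2 T :=
  VRR.vc_semiprime T hT

end Pool.Agent.Results.MP_b791b1_lc.RingTheories
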