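import Pool.Agent.VCR.MaimB

/-!
# Theories interpreting a torsion-free ring

Let `T` be a theory in a countable language, `M` a model of `T` and `R` a torsion-free ring with `1`, not
necessarily commutative, interpretable with parameters in `M`. Then the theory of `M` is not small and there is a
nonempty perfect set of pairwise non-isomorphic countable models of `T`, or `R` is semiprimary of a very special
form: a homomorphism with nilpotent kernel maps `R` onto a finite product of full matrix rings over
algebraically closed fields of characteristic `0`. In particular small division rings of characteristic `0` are
commutative.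
-/

open FirstOrder VCR

namespace Pool.Agent.Results.MP_b791b1_lc.TorsionFreeRings

universe u v

theorem result {L : FirstOrder.Language.{0, 0}} [Countable L.Symbols] (T : L.Theory)
    {M : Type u} [L.Structure M] (hM : M ⊨ T) (R : Type v) [Ring R]
    (hI : Interpretable L M R)
    (htf : ∀ (n : ℕ) (x : R), n ≠ 0 → n • x = 0 → x = 0) :
    IsAcfSemiprimary R ∨ (¬ SmallTheory L M ∧ PerfectMany T) :=
  part_eight T hM R hI htf

end Pool.Agent.Results.MP_b791b1_lc.TorsionFreeRings
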